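import Pool.Agent.H37.CNR.Stmts

/-!
# Board `cnr`, row WLX (helper62): a regular function with a large pole at `P` only
-/

set_option autoImplicit false

namespace Pool.CND

open Finset

/-- the place `z ↦ P.ord (σ z)` -/
private noncomputable def wlxPl {k L : Type} [Field k] [Field L] [Algebra k L] (P : Place k L)
    (σ : L ≃ₐ[k] L) : Place k L where
  ord z := P.ord (σ z)
  ord_mul x y hx hy := by
    rw [map_mul]
    exact P.ord_mul _ _ (by simpa using hx) (by simpa using hy)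
  ord_add x y hx hy hxy := by
    rw [map_add]
    refine P.ord_add _ _ (by simpa using hx) (by simpa using hy) ?_
    rw [← map_add]
    exact (map_ne_zero_iff _ σ.injective).2 hxy
  ord_surj := by
    obtain ⟨x, hx, h1⟩ := P.ord_surj
    exact ⟨σ.symm x, by simpa using hx, by rw [AlgEquiv.apply_symm_apply]; exact h1⟩
  ord_const c hc := by
    rw [AlgEquiv.commutes]
    exact P.ord_const c hc
  residue x hx h0 := by
    obtain ⟨c, hc⟩ := P.residue (σ x) (by simpa using hx) h0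
    refine ⟨c, ?_⟩
    rcases hc with hc | hc
    · left
      apply σ.injective
      rw [hc, AlgEquiv.commutes]
    · right
      rw [map_sub, AlgEquiv.commutes]
      exact hc

/-- the order of a polynomial in `t` at a pole of `t` -/
private theorem wlx_poly {k L : Type} [Field k] [Field L] [Algebra k L] (P : Place k L) (t : L)
    (ht0 : t ≠ 0) (ht : P.ord t < 0) (q : Polynomial k) (hq : q ≠ 0) :
    Polynomial.aeval t q ≠ 0 ∧ P.ord (Polynomial.aeval t q) = q.natDegree * P.ord t := by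
  have h1 : Polynomial.aeval t q = algebraMap k L q.leadingCoeff * t ^ q.natDegree +
      ∑ i ∈ range q.natDegree, algebraMap k L (q.coeff i) * t ^ i := by
    rw [Polynomial.aeval_eq_sum_range, Finset.sum_range_succ, add_comm]
    congr 1
    · rw [Algebra.smul_def]
      rfl
    · exact Finset.sum_congr rfl fun i _ => by rw [Algebra.smul_def]
  have hl : q.leadingCoeff ≠ 0 := Polynomial.leadingCoeff_ne_zero.2 hq
  have hl' : algebraMap k L q.leadingCoeff ≠ 0 :=
    (map_ne_zero_iff _ (algebraMap k L).injective).2 hl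
  have hx : algebraMap k L q.leadingCoeff * t ^ q.natDegree ≠ 0 :=
    mul_ne_zero hl' (pow_ne_zero _ ht0)
  have hxo : P.ord (algebraMap k L q.leadingCoeff * t ^ q.natDegree) =
      q.natDegree * P.ord t := by
    rw [P.ord_mul _ _ hl' (pow_ne_zero _ ht0), P.ord_const _ hl, zero_add, P.ord_pow ht0]
  have h2 : P.Ge (∑ i ∈ range q.natDegree, algebraMap k L (q.coeff i) * t ^ i)
      (P.ord (algebraMap k L q.leadingCoeff * t ^ q.natDegree) + 1) := by
    rw [hxo]
    refine P.ge_sum _ _ _ fun i hi => ?_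
    rw [mem_range] at hi
    have h4 : P.Ge (t ^ i) (i * P.ord t) := Or.inr (le_of_eq (P.ord_pow ht0 i).symm)
    refine P.ge_mono (P.ge_mul (P.ge_const (q.coeff i)) h4) ?_
    have h5 : (i : ℤ) + 1 ≤ q.natDegree := by exact_mod_cast hi
    nlinarith
  obtain ⟨h4, h5⟩ := P.ord_add_of_lt hx h2
  rw [h1]
  exact ⟨h4, h5.trans hxo⟩

theorem wlx_thm (hWAP : S_WAP) (hFRC : S_FRC) : S_WLX := by
  classical
  intro k L H _ _ _ _ _ _ ρ t P hcov ht
  have ht0 : t ≠ 0 := by
    intro h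
    apply hcov.trans
    rw [h]
    exact isAlgebraic_zero
  have htf : ∀ h : H, ρ h t = t := fun h =>
    (hcov.fixed t).2 (IntermediateField.mem_adjoin_simple_self k t) h
  letI : Fintype {h : H // ¬ Fixes P (ρ h)} := Fintype.ofFinite _
  obtain ⟨a, ha0, ha1, haQ⟩ := hWAP k L {h : H // ¬ Fixes P (ρ h)} P
    (fun h => wlxPl P (ρ h.1)) (by
      rintro ⟨h, hh⟩
      unfold Fixes at hh
      push Not at hh
      obtain ⟨x, hx0, hx⟩ := hh
      exact ⟨x, hx0, fun h' => hx h'.symm⟩)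
  have haQ' : ∀ h : H, ¬ Fixes P (ρ h) → P.ord (ρ h a) = 0 := fun h hh => haQ ⟨h, hh⟩
  obtain ⟨q, hq0, hreg⟩ := hFRC k L H ρ t a⁻¹ hcov
  obtain ⟨hqt0, hqt⟩ := wlx_poly P t ht0 ht q hq0
  obtain ⟨e, he⟩ : ∃ e : ℕ, (e : ℤ) = -P.ord t :=
    ⟨(-P.ord t).toNat, Int.toNat_of_nonneg (by omega)⟩
  have he1 : 1 ≤ e := by omega
  obtain ⟨d, hd⟩ : ∃ d : ℕ, d = q.natDegree := ⟨_, rfl⟩
  rw [← hd] at hqt
  obtain ⟨s, hs⟩ : ∃ s : L, s = Polynomial.aeval t q * a⁻¹ := ⟨_, rfl⟩
  rw [← hs] at hreg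
  have hainv : a⁻¹ ≠ 0 := inv_ne_zero ha0
  have hs0 : s ≠ 0 := by
    rw [hs]
    exact mul_ne_zero hqt0 hainv
  have hto : P.ord t = -(e : ℤ) := by omega
  have hso : P.ord s = -((d : ℤ) * e) - 1 := by
    rw [hs, P.ord_mul _ _ hqt0 hainv, P.ord_inv ha0, hqt, ha1, hto]
    ring
  have hρ0 : ∀ (h : H) (z : L), z ≠ 0 → ρ h z ≠ 0 := fun h z hz =>
    (map_ne_zero_iff _ (ρ h).injective).2 hz
  have hρq : ∀ h : H, ρ h (Polynomial.aeval t q) = Polynomial.aeval t q := by
    intro h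
    have h1 := Polynomial.aeval_algHom_apply (ρ h : L ≃ₐ[k] L).toAlgHom t q
    have h2 : (ρ h : L ≃ₐ[k] L).toAlgHom t = t := htf h
    rw [h2] at h1
    exact h1.symm
  have hsh : ∀ h : H, ¬ Fixes P (ρ h) → P.ord (ρ h s) = -((d : ℤ) * e) := by
    intro h hh
    rw [hs, map_mul, hρq, map_inv₀, P.ord_mul _ _ hqt0 (inv_ne_zero (hρ0 h a ha0)),
      P.ord_inv (hρ0 h a ha0), haQ' h hh, hqt, hto]
    ring
  refine ⟨e * (1 + d * e), fun n hn => ?_⟩
  obtain ⟨i, m, hi1, hnim⟩ : ∃ i m : ℕ, 1 ≤ i ∧ n = i * (1 + d * e) + m * e := by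
    have hn1 : 1 ≤ n := le_trans (Nat.mul_pos he1 (by omega)) hn
    have h1 := Nat.div_add_mod (n - 1) e
    have h2 : (n - 1) % e < e := Nat.mod_lt _ he1
    obtain ⟨i, hi⟩ : ∃ i, i = (n - 1) % e + 1 := ⟨_, rfl⟩
    obtain ⟨r, hr⟩ : ∃ r, r = (n - 1) / e := ⟨_, rfl⟩
    rw [← hr] at h1
    have h4 : n = e * r + i := by omega
    have hie : i ≤ e := by omega
    have h3 : i * d ≤ r := by
      by_contra hcon
      have h5 : r + 1 ≤ i * d := by omega
      have h6 : e * (r + 1) ≤ e * (i * d) := Nat.mul_le_mul_left _ h5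
      have h7 : i * d ≤ e * d := Nat.mul_le_mul_right _ hie
      have h8 : e * (i * d) ≤ e * (e * d) := Nat.mul_le_mul_left _ h7
      nlinarith
    obtain ⟨m, hm⟩ := Nat.exists_eq_add_of_le h3
    refine ⟨i, m, by omega, ?_⟩
    rw [h4, hm]
    ring
  have hord : ∀ P' : Place k L, ∀ x : L, x ≠ 0 →
      P'.ord (x ^ i * t ^ m) = i * P'.ord x + m * P'.ord t := by
    intro P' x hx
    rw [P'.ord_mul _ _ (pow_ne_zero _ hx) (pow_ne_zero _ ht0), P'.ord_pow hx, P'.ord_pow ht0]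
  refine ⟨s ^ i * t ^ m, mul_ne_zero (pow_ne_zero _ hs0) (pow_ne_zero _ ht0), ?_, ?_, ?_⟩
  · intro P' hP'
    right
    rw [hord P' s hs0]
    have h1 := (hreg P' hP').resolve_left hs0
    positivity
  · rw [hord P s hs0, hso, hto, hnim]
    push_cast
    ring
  · intro h hh
    rw [map_mul, map_pow, map_pow, htf, hord P _ (hρ0 h s hs0), hsh h hh, hto, hnim]
    push_cast
    have h1 : (1 : ℤ) ≤ i := by exact_mod_cast hi1
    linarith

end Pool.CND
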